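import Mathlib.GroupTheory.Solvable
import Mathlib.GroupTheory.Frattini
import Mathlib.GroupTheory.GroupAction.Quotient
import Mathlib.Data.ZMod.Basic
import Mathlib.FieldTheory.Finite.Basic
import Mathlib.NumberTheory.PrimesCongruentOne
import Mathlib.NumberTheory.Primorial

/-!
# Prime divisors versus the inconjugate intersection number

For a prime `p` let `G = 𝔽_p² ⋊ 𝔽_p^×` be the group of the homotheties and translations of the
affine plane over `𝔽_p`. The stabilisers of the three sides of a triangle are maximal subgroups, are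
pairwise inconjugate and meet in the trivial group, so that the inconjugate intersection number of
`G` is at most `3`, whereas `|G| = p ^ 2 * (p - 1)` has as many prime divisors as one likes.
-/

set_option autoImplicit false

namespace Pool.Agent.Results.MP_c68965_al.Homotheties

/-- `H` and `K` are conjugate: `g H g⁻¹ = K` for some `g`. -/
def AreConj {G : Type*} [Group G] (H K : Subgroup G) : Prop :=
  ∃ g : G, H.map (MulAut.conj g).toMonoidHom = K

/-- There are `k` maximal subgroups of `G`, pairwise inconjugate, whose intersection is the Frattini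
subgroup of `G`. -/
def HasFamily (G : Type*) [Group G] (k : ℕ) : Prop :=
  ∃ M : Fin k → Subgroup G, (∀ i, IsCoatom (M i)) ∧ (∀ i j, i ≠ j → ¬ AreConj (M i) (M j)) ∧
    ⨅ i, M i = frattini G

/-- The inconjugate intersection number of `G`: the least `k ≥ 1` such that `k` maximal subgroups of
`G`, pairwise inconjugate, intersect in the Frattini subgroup; it is `∞` if there is no such `k`. -/
noncomputable def iotaHat (G : Type*) [Group G] : ℕ∞ :=
  sInf {x : ℕ∞ | ∃ k : ℕ, 1 ≤ k ∧ HasFamily G k ∧ x = (k : ℕ∞)}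

/-- The group of the maps `v ↦ u v + (x, y)` of the plane over `ZMod p`, with `u` a unit. -/
@[ext] structure Aff (p : ℕ) where
  /-- first coordinate of the translation part -/
  x : ZMod p
  /-- second coordinate of the translation part -/
  y : ZMod p
  /-- the scalar -/
  u : (ZMod p)ˣ

namespace Aff

variable {p : ℕ}

instance : Group (Aff p) where
  mul g h := ⟨g.x + g.u * h.x, g.y + g.u * h.y, g.u * h.u⟩
  one := ⟨0, 0, 1⟩
  inv g := ⟨-(g.u⁻¹ : (ZMod p)ˣ) * g.x, -(g.u⁻¹ : (ZMod p)ˣ) * g.y, g.u⁻¹⟩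
  mul_assoc g h k := by
    ext
    · change g.x + g.u * h.x + ((g.u * h.u : (ZMod p)ˣ) : ZMod p) * k.x =
        g.x + g.u * (h.x + h.u * k.x)
      push_cast; ring
    · change g.y + g.u * h.y + ((g.u * h.u : (ZMod p)ˣ) : ZMod p) * k.y =
        g.y + g.u * (h.y + h.u * k.y)
      push_cast; ring
    · change ((g.u * h.u * k.u : (ZMod p)ˣ) : ZMod p) = ((g.u * (h.u * k.u) : (ZMod p)ˣ) : ZMod p)
      rw [mul_assoc]
  one_mul g := by
    ext
    · change 0 + ((1 : (ZMod p)ˣ) : ZMod p) * g.x = g.x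
      simp
    · change 0 + ((1 : (ZMod p)ˣ) : ZMod p) * g.y = g.y
      simp
    · change ((1 * g.u : (ZMod p)ˣ) : ZMod p) = g.u
      rw [one_mul]
  mul_one g := by
    ext
    · change g.x + g.u * 0 = g.x
      simp
    · change g.y + g.u * 0 = g.y
      simp
    · change ((g.u * 1 : (ZMod p)ˣ) : ZMod p) = g.u
      rw [mul_one]
  inv_mul_cancel g := by
    ext
    · change -(g.u⁻¹ : (ZMod p)ˣ) * g.x + ((g.u⁻¹ : (ZMod p)ˣ) : ZMod p) * g.x = 0
      ring
    · change -(g.u⁻¹ : (ZMod p)ˣ) * g.y + ((g.u⁻¹ : (ZMod p)ˣ) : ZMod p) * g.y = 0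
      ring
    · change ((g.u⁻¹ * g.u : (ZMod p)ˣ) : ZMod p) = ((1 : (ZMod p)ˣ) : ZMod p)
      rw [inv_mul_cancel]

@[simp] theorem mul_x (g h : Aff p) : (g * h).x = g.x + g.u * h.x := rfl
@[simp] theorem mul_y (g h : Aff p) : (g * h).y = g.y + g.u * h.y := rfl
@[simp] theorem mul_u (g h : Aff p) : (g * h).u = g.u * h.u := rfl
@[simp] theorem one_x : (1 : Aff p).x = 0 := rfl
@[simp] theorem one_y : (1 : Aff p).y = 0 := rfl
@[simp] theorem one_u : (1 : Aff p).u = 1 := rfl
@[simp] theorem inv_x (g : Aff p) : (g⁻¹).x = -(g.u⁻¹ : (ZMod p)ˣ) * g.x := rfl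
@[simp] theorem inv_y (g : Aff p) : (g⁻¹).y = -(g.u⁻¹ : (ZMod p)ˣ) * g.y := rfl
@[simp] theorem inv_u (g : Aff p) : (g⁻¹).u = g.u⁻¹ := rfl

/-- `Aff p` as a product of sets. -/
def equiv (p : ℕ) : Aff p ≃ ZMod p × ZMod p × (ZMod p)ˣ where
  toFun g := (g.x, g.y, g.u)
  invFun t := ⟨t.1, t.2.1, t.2.2⟩
  left_inv _ := rfl
  right_inv _ := rfl

/-- The projection to the scalars. -/
def proj (p : ℕ) : Aff p →* (ZMod p)ˣ where
  toFun g := g.u
  map_one' := rfl
  map_mul' _ _ := rfl

/-- The translations. -/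
def trans (p : ℕ) : Multiplicative (ZMod p × ZMod p) →* Aff p where
  toFun v := ⟨v.toAdd.1, v.toAdd.2, 1⟩
  map_one' := rfl
  map_mul' v w := by ext <;> simp

instance solv : Group.IsSolvable (Aff p) := by
  apply Group.isSolvable_of_ker_le_range (trans p) (proj p)
  intro g hg
  have h : g.u = 1 := hg
  exact ⟨Multiplicative.ofAdd (g.x, g.y), by ext <;> simp [trans, h]⟩

variable [hp : Fact p.Prime]

instance fin : Finite (Aff p) := Finite.of_equiv _ (equiv p).symm

theorem card : Nat.card (Aff p) = p ^ 2 * (p - 1) := by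
  rw [Nat.card_congr (equiv p), Nat.card_prod, Nat.card_prod, Nat.card_zmod,
    Nat.card_eq_fintype_card, ZMod.card_units, ← mul_assoc, sq]

/-- The action on a line `ZMod p` given by a linear form `a x + b y`. -/
@[reducible] def act (a b : ZMod p) : MulAction (Aff p) (ZMod p) where
  smul g t := g.u * t + (a * g.x + b * g.y)
  one_smul t := by
    change ((1 : (ZMod p)ˣ) : ZMod p) * t + (a * 0 + b * 0) = t
    simp
  mul_smul g h t := by
    change ((g.u * h.u : (ZMod p)ˣ) : ZMod p) * t + (a * (g.x + g.u * h.x) +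
      b * (g.y + g.u * h.y)) = g.u * (h.u * t + (a * h.x + b * h.y)) + (a * g.x + b * g.y)
    push_cast; ring

/-- The stabiliser of the line `a x + b y = c`. -/
def M (a b c : ZMod p) : Subgroup (Aff p) := @MulAction.stabilizer (Aff p) (ZMod p) _ (act a b) c

theorem mem_M (a b c : ZMod p) (g : Aff p) :
    g ∈ M a b c ↔ g.u * c + (a * g.x + b * g.y) = c := Iff.rfl

theorem index_M (a b c : ZMod p) (hab : ∃ x y : ZMod p, a * x + b * y = 1) :
    (M a b c).index = p := by
  let _ := act a b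
  haveI : MulAction.IsPretransitive (Aff p) (ZMod p) := ⟨fun s t => by
    obtain ⟨x, y, hxy⟩ := hab
    refine ⟨⟨(t - s) * x, (t - s) * y, 1⟩, ?_⟩
    change ((1 : (ZMod p)ˣ) : ZMod p) * s + (a * ((t - s) * x) + b * ((t - s) * y)) = t
    have : a * ((t - s) * x) + b * ((t - s) * y) = (t - s) * (a * x + b * y) := by ring
    rw [this, hxy]; simp⟩
  have := MulAction.index_stabilizer_of_transitive (Aff p) (c : ZMod p)
  rw [Nat.card_zmod] at this
  exact this

omit hp in
theorem isCoatom_of_index_prime {G : Type*} [Group G] {q : ℕ} (hq : q.Prime) (H : Subgroup G)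
    (h : H.index = q) : IsCoatom H := by
  constructor
  · rintro rfl
    rw [Subgroup.index_top] at h
    exact hq.one_lt.ne h
  · intro K hK
    have h1 := Subgroup.relIndex_mul_index hK.le
    rw [h] at h1
    rcases (Nat.dvd_prime hq).mp (Dvd.intro_left _ h1) with h2 | h2
    · exact Subgroup.index_eq_one.mp h2
    · exfalso
      rw [h2] at h1
      have h3 : H.relIndex K = 1 := Nat.eq_of_mul_eq_mul_right hq.pos (by rw [h1, one_mul])
      exact absurd (Subgroup.relIndex_eq_one.mp h3) (not_le_of_gt hK)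

theorem coatom_M (a b c : ZMod p) (hab : ∃ x y : ZMod p, a * x + b * y = 1) :
    IsCoatom (M a b c) := isCoatom_of_index_prime hp.out _ (index_M a b c hab)

/-- If the lines are not parallel, the stabilisers are not conjugate. -/
theorem not_conj (a b c a' b' c' : ZMod p) (x y : ZMod p) (h1 : a * x + b * y = 0)
    (h2 : a' * x + b' * y ≠ 0) : ¬ AreConj (M a b c) (M a' b' c') := by
  rintro ⟨g, hg⟩
  have h3 : (⟨x, y, 1⟩ : Aff p) ∈ M a b c := by
    rw [mem_M]; simp [h1]
  have h4 : g * ⟨x, y, 1⟩ * g⁻¹ ∈ M a' b' c' := by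
    rw [← hg]
    exact ⟨_, h3, rfl⟩
  rw [mem_M] at h4
  simp only [mul_x, mul_y, mul_u, inv_x, inv_y, inv_u, mul_one, mul_inv_cancel, Units.val_one,
    one_mul, neg_mul, mul_neg, Units.mul_inv_cancel_left] at h4
  apply h2
  have h5 : (g.u : ZMod p) * (a' * x + b' * y) = 0 := by linear_combination h4
  exact (mul_eq_zero.mp h5).resolve_left (Units.ne_zero g.u)

/-- The three subgroups. -/
def fam (p : ℕ) [Fact p.Prime] : Fin 3 → Subgroup (Aff p) := ![M 1 0 0, M 0 1 0, M 1 1 1]

theorem fam_coatom (i : Fin 3) : IsCoatom (fam p i) := by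
  fin_cases i
  · exact coatom_M _ _ _ ⟨1, 0, by simp⟩
  · exact coatom_M _ _ _ ⟨0, 1, by simp⟩
  · exact coatom_M _ _ _ ⟨1, 0, by simp⟩

theorem fam_inconj (i j : Fin 3) (hij : i ≠ j) : ¬ AreConj (fam p i) (fam p j) := by
  have one_ne : (1 : ZMod p) ≠ 0 := one_ne_zero
  fin_cases i <;> fin_cases j
  · exact absurd rfl hij
  · exact not_conj 1 0 0 0 1 0 0 1 (by simp) (by simp)
  · exact not_conj 1 0 0 1 1 1 0 1 (by simp) (by simp)
  · exact not_conj 0 1 0 1 0 0 1 0 (by simp) (by simp)
  · exact absurd rfl hij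
  · exact not_conj 0 1 0 1 1 1 1 0 (by simp) (by simp)
  · exact not_conj 1 1 1 1 0 0 1 (-1) (by simp) (by simp)
  · exact not_conj 1 1 1 0 1 0 1 (-1) (by simp) (by simp)
  · exact absurd rfl hij

theorem fam_inf : ⨅ i, fam p i = ⊥ := by
  rw [eq_bot_iff]
  intro g hg
  rw [Subgroup.mem_iInf] at hg
  have h0 : g ∈ M 1 0 0 := hg 0
  have h1 : g ∈ M 0 1 0 := hg 1
  have h2 : g ∈ M 1 1 1 := hg 2
  rw [mem_M] at h0 h1 h2
  simp only [mul_zero, one_mul, zero_mul, add_zero, zero_add, mul_one] at h0 h1 h2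
  rw [h0, h1, add_zero, add_zero] at h2
  rw [Subgroup.mem_bot]
  ext
  · exact h0
  · exact h1
  · exact h2

theorem frattini_eq : frattini (Aff p) = ⊥ := by
  rw [eq_bot_iff, ← fam_inf]
  exact le_iInf fun i => frattini_le_coatom (fam_coatom i)

theorem hasFamily : HasFamily (Aff p) 3 :=
  ⟨fam p, fam_coatom, fam_inconj, by rw [fam_inf, frattini_eq]⟩

theorem iotaHat_le : iotaHat (Aff p) ≤ 3 :=
  sInf_le ⟨3, by norm_num, hasFamily, rfl⟩

end Aff

/-- The number of primes dividing `n!` is unbounded; used for a common multiple. -/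
theorem exists_prime_many (n : ℕ) : ∃ p : ℕ, p.Prime ∧ n ≤ (p - 1).primeFactors.card := by
  obtain ⟨s, hs, hc⟩ := Nat.infinite_setOfPred_prime.exists_subset_card_eq n
  have hne : (∏ q ∈ s, q) ≠ 0 := Finset.prod_ne_zero_iff.mpr fun q hq => (hs hq).ne_zero
  obtain ⟨p, hp, -, hmod⟩ := Nat.exists_prime_gt_modEq_one (k := ∏ q ∈ s, q) 1 hne
  refine ⟨p, hp, ?_⟩
  rw [← hc]
  apply Finset.card_le_card
  intro q hq
  rw [Nat.mem_primeFactors]
  have h1 : (∏ q ∈ s, q) ∣ p - 1 := (Nat.modEq_iff_dvd' hp.one_lt.le).mp hmod.symm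
  exact ⟨hs hq, (Finset.dvd_prod_of_mem _ hq).trans h1, by have := hp.one_lt; omega⟩

/-- For every `n` there is a nontrivial finite solvable group `G` with inconjugate intersection
number at most `3` (in particular finite) and with more than `n` prime divisors of `|G|`. In
particular `|π(G)| ≤ ι̂(G)` fails for some nontrivial solvable group. -/
theorem result (n : ℕ) : ∃ (G : Type) (_ : Group G), Finite G ∧ Nontrivial G ∧
    Group.IsSolvable G ∧ iotaHat G ≤ 3 ∧ n < (Nat.card G).primeFactors.card := by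
  obtain ⟨p, hp, hn⟩ := exists_prime_many n
  haveI : Fact p.Prime := ⟨hp⟩
  refine ⟨Aff p, inferInstance, inferInstance, ⟨⟨1, ⟨1, 0, 1⟩, ?_⟩⟩, inferInstance,
    Aff.iotaHat_le, ?_⟩
  · intro h
    exact zero_ne_one (congrArg Aff.x h)
  · rw [Aff.card]
    have hp1 : p - 1 ≠ 0 := by have := hp.one_lt; omega
    have h1 : insert p (p - 1).primeFactors ⊆ (p ^ 2 * (p - 1)).primeFactors := by
      intro q hq
      rw [Finset.mem_insert] at hq
      rw [Nat.mem_primeFactors]
      refine ⟨?_, ?_, mul_ne_zero (pow_ne_zero _ hp.ne_zero) hp1⟩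
      · rcases hq with rfl | hq
        · exact hp
        · exact Nat.prime_of_mem_primeFactors hq
      · rcases hq with rfl | hq
        · exact (dvd_pow_self q (by norm_num)).mul_right _
        · exact (Nat.dvd_of_mem_primeFactors hq).mul_left _
    have h2 : p ∉ (p - 1).primeFactors := by
      intro h
      have h3 := Nat.le_of_dvd (Nat.pos_of_ne_zero hp1) (Nat.dvd_of_mem_primeFactors h)
      have := hp.one_lt
      omega
    have h3 := Finset.card_le_card h1
    rw [Finset.card_insert_of_notMem h2] at h3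
    omega

end Pool.Agent.Results.MP_c68965_al.Homotheties
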